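import Mathlib

open Finset Polynomial

namespace Pool.Agent.Results.MP_e23efd_co.ConstantOnly

/-! ### The truncated alternating functional on `(ZMod p)[X]` -/

section functional

variable {p : ℕ} [hp : Fact p.Prime]

/-- `cf q f = ∑_{k<q} (-1)^k [X^k] f`. -/
noncomputable def cf (p q : ℕ) : (ZMod p)[X] →ₗ[ZMod p] ZMod p :=
  ∑ k ∈ range q, ((-1)^k : ZMod p) • Polynomial.lcoeff (ZMod p) k

lemma cf_apply (q : ℕ) (f : (ZMod p)[X]) :
    cf p q f = ∑ k ∈ range q, (-1)^k * f.coeff k := by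
  simp [cf, LinearMap.sum_apply]

lemma cf_dvd (q : ℕ) (f : (ZMod p)[X]) : cf p q (X^q * f) = 0 := by
  rw [cf_apply]
  refine Finset.sum_eq_zero fun k hk => ?_
  rw [Polynomial.coeff_X_pow_mul', if_neg (by simpa using hk), mul_zero]

lemma cf_congr {q : ℕ} {f g : (ZMod p)[X]} (h : X^q ∣ f - g) : cf p q f = cf p q g := by
  obtain ⟨r, hr⟩ := h
  have : f = g + X^q * r := by rw [← hr]; ring
  rw [this, map_add, cf_dvd, add_zero]

lemma cf_top {q : ℕ} (hq : 1 ≤ q) (f : (ZMod p)[X]) :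
    cf p q (X^(q-1) * f) = (-1)^(q-1) * f.coeff 0 := by
  rw [cf_apply, Finset.sum_eq_single (q-1)]
  · rw [Polynomial.coeff_X_pow_mul', if_pos le_rfl, Nat.sub_self]
  · intro k hk hne
    have : ¬ (q - 1 ≤ k) := by
      have := mem_range.mp hk
      omega
    rw [Polynomial.coeff_X_pow_mul', if_neg this, mul_zero]
  · intro h
    exfalso
    apply h
    rw [mem_range]; omega

lemma cf_u_small {q N : ℕ} (h : N < q) :
    cf p q ((X+1)^N) = if N = 0 then 1 else 0 := by
  have h0 : (X + 1 : (ZMod p)[X]).natDegree = 1 := by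
    simpa using natDegree_X_add_C (1 : ZMod p)
  have h1 : ((X+1 : (ZMod p)[X])^N).natDegree < q := by
    refine lt_of_le_of_lt (natDegree_pow_le) ?_
    rw [h0, mul_one]; exact h
  have h2 := Polynomial.eval_eq_sum_range' h1 (-1)
  rw [cf_apply]
  have h3 : ∀ k ∈ range q, (-1 : ZMod p)^k * ((X+1 : (ZMod p)[X])^N).coeff k
      = ((X+1 : (ZMod p)[X])^N).coeff k * (-1)^k := fun k _ => mul_comm _ _
  rw [Finset.sum_congr rfl h3, ← h2]
  simp only [eval_pow, eval_add, eval_X, eval_one, neg_add_cancel]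
  split_ifs with h4
  · rw [h4, pow_zero]
  · exact zero_pow h4

lemma cf_u {r N : ℕ} :
    cf p (p^r) ((X+1)^N) = if p^r ∣ N then 1 else 0 := by
  have hq : 0 < p^r := pow_pos hp.out.pos r
  have h1 : cf p (p^r) ((X+1)^N) = cf p (p^r) ((X+1)^(N % p^r)) := by
    apply cf_congr
    have h2 : (X+1 : (ZMod p)[X])^N
        = (X+1)^(N % p^r) * ((X^(p^r) + 1)^(N / p^r)) := by
      conv_lhs => rw [← Nat.mod_add_div N (p^r)]
      rw [pow_add, pow_mul]
      congr 2
      rw [add_pow_char_pow, one_pow]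
    rw [h2]
    have h3 : (X+1 : (ZMod p)[X])^(N % p^r) * ((X^(p^r) + 1)^(N / p^r)) - (X+1)^(N % p^r)
        = (X+1)^(N % p^r) * ((X^(p^r) + 1)^(N / p^r) - 1^(N / p^r)) := by
      rw [one_pow]; ring
    rw [h3]
    refine Dvd.dvd.mul_left ?_ _
    have h4 := sub_dvd_pow_sub_pow ((X : (ZMod p)[X])^(p^r) + 1) 1 (N / p^r)
    rwa [add_sub_cancel_right] at h4
  rw [h1, cf_u_small (Nat.mod_lt _ hq)]
  congr 1
  exact propext (Nat.dvd_iff_mod_eq_zero).symm

end functional

/-! ### Binomial facts -/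

section binom
variable {p : ℕ} [hp : Fact p.Prime]

lemma choose_pow_self (s n : ℕ) : ((n.choose (p^s) : ℕ) : ZMod p) = ((n / p^s : ℕ) : ZMod p) := by
  have h := Choose.choose_modEq_choose_mul_prod_range_choose (n := n) (k := p^s) (p := p) s
  have hq : 0 < p^s := pow_pos hp.out.pos s
  rw [Nat.div_self hq, Nat.choose_one_right, Finset.prod_eq_one, Nat.cast_one, mul_one] at h
  · have := (ZMod.intCast_eq_intCast_iff _ _ _).mpr h
    exact_mod_cast this
  · intro i hi
    have hi' := mem_range.mp hi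
    have h1 : p^s / p^i % p = 0 := by
      rw [Nat.pow_div hi'.le hp.out.pos]
      obtain ⟨d, hd⟩ : ∃ d, s - i = d + 1 := ⟨s - i - 1, by omega⟩
      rw [hd, pow_succ]
      exact Nat.mul_mod_left _ _
    rw [h1, Nat.choose_zero_right]

lemma choose_dvd {s n i : ℕ} (hn : p^s ∣ n) (h0 : 0 < i) (h1 : i < p^s) :
    ((n.choose i : ℕ) : ZMod p) = 0 := by
  rw [ZMod.natCast_eq_zero_iff]
  by_contra hnd
  have hco : Nat.Coprime (p^s) (n.choose i) :=
    Nat.Coprime.pow_left _ ((Nat.Prime.coprime_iff_not_dvd hp.out).mpr hnd)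
  obtain ⟨i', rfl⟩ : ∃ i', i = i' + 1 := ⟨i - 1, by omega⟩
  rcases Nat.eq_zero_or_pos n with h | h
  · subst h
    simp at hnd
  obtain ⟨n', rfl⟩ : ∃ n', n = n' + 1 := ⟨n - 1, by omega⟩
  have h2 := Nat.add_one_mul_choose_eq n' i'
  have h3 : p^s ∣ (n'+1).choose (i'+1) * (i'+1) := by
    rw [← h2]; exact Dvd.dvd.mul_right hn _
  have h4 := hco.dvd_of_dvd_mul_left h3
  exact absurd (Nat.le_of_dvd (by omega) h4) (by omega)

end binom


/-! ### Möbius inversion over families of `m`-sets -/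

section families
variable {p : ℕ} [hp : Fact p.Prime] {ι : Type*} [DecidableEq ι]

/-- the `m`-th elementary symmetric function of the natural lifts -/
def E (m : ℕ) (a : ι → ℕ) (Y : Finset ι) : ℕ := ∑ I ∈ Y.powersetCard m, ∏ i ∈ I, a i

/-- the weight of one block -/
noncomputable def w (p : ℕ) (a : ι → ℕ) (I : Finset ι) : (ZMod p)[X] :=
  (X+1)^(∏ i ∈ I, a i) - 1

/-- families of `m`-subsets with union exactly `J` -/
def Fam (m : ℕ) (J : Finset ι) : Finset (Finset (Finset ι)) :=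
  (J.powersetCard m).powerset.filter (fun F => F.sup id = J)

/-- total weight of the families with union exactly `J` -/
noncomputable def h (p m : ℕ) (a : ι → ℕ) (J : Finset ι) : (ZMod p)[X] :=
  ∑ F ∈ Fam m J, ∏ I ∈ F, w p a I

lemma sup_mem {F : Finset (Finset ι)} {x : ι} : x ∈ F.sup id ↔ ∃ I ∈ F, x ∈ I := by
  rw [Finset.sup_eq_biUnion]; simp

lemma fam_mem {m : ℕ} {J : Finset ι} {F : Finset (Finset ι)} :
    F ∈ Fam m J ↔ (∀ I ∈ F, I.card = m) ∧ F.sup id = J := by
  unfold Fam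
  rw [mem_filter, mem_powerset]
  constructor
  · rintro ⟨h1, h2⟩
    exact ⟨fun I hI => (mem_powersetCard.mp (h1 hI)).2, h2⟩
  · rintro ⟨h1, h2⟩
    refine ⟨fun I hI => mem_powersetCard.mpr ⟨?_, h1 I hI⟩, h2⟩
    intro x hx
    rw [← h2, sup_mem]
    exact ⟨I, hI, hx⟩

lemma expand (m : ℕ) (a : ι → ℕ) (Y : Finset ι) :
    (X+1 : (ZMod p)[X])^(E m a Y) = ∑ Z ∈ Y.powerset, h p m a Z := by
  have h1 : (X+1 : (ZMod p)[X])^(E m a Y) = ∏ I ∈ Y.powersetCard m, (w p a I + 1) := by
    rw [E, ← Finset.prod_pow_eq_pow_sum]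
    refine Finset.prod_congr rfl fun I _ => ?_
    rw [w, sub_add_cancel]
  rw [h1, Finset.prod_add_one]
  rw [← Finset.sum_fiberwise_of_maps_to (s := (Y.powersetCard m).powerset) (t := Y.powerset)
    (g := fun F => F.sup id)]
  · refine Finset.sum_congr rfl fun Z hZ => ?_
    rw [h]
    refine Finset.sum_congr ?_ fun _ _ => rfl
    ext F
    rw [fam_mem, mem_filter, mem_powerset]
    constructor
    · rintro ⟨h2, h3⟩
      exact ⟨fun I hI => (mem_powersetCard.mp (h2 hI)).2, h3⟩
    · rintro ⟨h2, h3⟩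
      refine ⟨fun I hI => mem_powersetCard.mpr ⟨?_, h2 I hI⟩, h3⟩
      intro x hx
      apply mem_powerset.mp hZ
      rw [← h3, sup_mem]
      exact ⟨I, hI, hx⟩
  · intro F hF
    rw [mem_powerset] at hF ⊢
    intro x hx
    rw [sup_mem] at hx
    obtain ⟨I, hI, hx⟩ := hx
    exact (mem_powersetCard.mp (hF hI)).1 hx

lemma mobius (m : ℕ) (a : ι → ℕ) (J : Finset ι) :
    h p m a J = ∑ T ∈ J.powerset, (-1 : (ZMod p)[X])^(T.card) * (X+1)^(E m a (J \ T)) := by
  have h1 : ∑ T ∈ J.powerset, (-1 : (ZMod p)[X])^(T.card) * (X+1)^(E m a (J \ T))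
      = ∑ T ∈ J.powerset, ∑ Z ∈ (J \ T).powerset, (-1 : (ZMod p)[X])^(T.card) * h p m a Z := by
    refine Finset.sum_congr rfl fun T _ => ?_
    rw [expand, Finset.mul_sum]
  rw [h1, Finset.sum_comm' (s' := fun Z => (J \ Z).powerset) (t' := J.powerset)]
  · rw [Finset.sum_eq_single J]
    · simp
    · intro Z hZ hne
      rw [← Finset.sum_mul]
      have h2 := Finset.sum_powerset_neg_one_pow_card (x := J \ Z)
      have h3 : J \ Z ≠ ∅ := by
        intro h4
        apply hne
        exact Finset.Subset.antisymm (mem_powerset.mp hZ) (Finset.sdiff_eq_empty_iff_subset.mp h4)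
      rw [if_neg h3] at h2
      have h4 : ∑ T ∈ (J \ Z).powerset, (-1 : (ZMod p)[X])^(T.card) = 0 := by
        have := congrArg (Int.cast : ℤ → (ZMod p)[X]) h2
        push_cast at this
        exact this
      rw [h4, zero_mul]
    · intro h2
      exact absurd (mem_powerset.mpr (Finset.Subset.refl J)) h2
  · intro T Z
    simp only [mem_powerset]
    constructor
    · rintro ⟨h2, h3⟩
      refine ⟨fun x hx => mem_sdiff.mpr ⟨h2 hx, fun hxZ => ?_⟩, fun x hx => (mem_sdiff.mp (h3 hx)).1⟩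
      exact (mem_sdiff.mp (h3 hxZ)).2 hx
    · rintro ⟨h2, h3⟩
      refine ⟨fun x hx => (mem_sdiff.mp (h2 hx)).1, fun x hx => mem_sdiff.mpr ⟨h3 hx, fun hxT => ?_⟩⟩
      exact (mem_sdiff.mp (h2 hxT)).2 hx

/-- the value of `cf (h J)` for a zero-free sequence -/
def kap (p m n : ℕ) : ZMod p :=
  ∑ t ∈ range (n+1), n.choose t • ((-1)^t * (if n - t < m then 1 else 0))

omit [DecidableEq ι] in
lemma E_lt {m : ℕ} {a : ι → ℕ} {Y : Finset ι} (hY : Y.card < m) : E m a Y = 0 := by
  rw [E, Finset.powersetCard_eq_empty.mpr hY, Finset.sum_empty]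

lemma cf_h {m r : ℕ} {a : ι → ℕ} (hfree : ∀ Y : Finset ι, m ≤ Y.card → ¬ p^r ∣ E m a Y)
    (J : Finset ι) : cf p (p^r) (h p m a J) = kap p m J.card := by
  rw [mobius, map_sum]
  have h1 : ∀ T ∈ J.powerset, cf p (p^r) ((-1 : (ZMod p)[X])^(T.card) * (X+1)^(E m a (J \ T)))
      = (fun t => (-1 : ZMod p)^t * (if J.card - t < m then 1 else 0)) T.card := by
    intro T hT
    have h2 : ((-1 : (ZMod p)[X])^(T.card) * (X+1)^(E m a (J \ T)))
        = ((-1 : ZMod p)^(T.card)) • (X+1)^(E m a (J \ T)) := by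
      rw [Polynomial.smul_eq_C_mul]
      simp
    rw [h2, map_smul, cf_u, smul_eq_mul]
    have h3 : (J \ T).card = J.card - T.card := Finset.card_sdiff_of_subset (mem_powerset.mp hT)
    simp only
    congr 1
    by_cases h4 : J.card - T.card < m
    · rw [if_pos h4, E_lt (by omega), if_pos (dvd_zero _)]
    · rw [if_neg h4, if_neg (hfree _ (by omega))]
  rw [Finset.sum_congr rfl h1]
  exact Finset.sum_powerset_apply_card
    (fun t => (-1 : ZMod p)^t * (if J.card - t < m then 1 else 0))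

lemma kap_val {s n : ℕ} (hn : p^s ∣ n) : kap p (p^s) n = (-1)^n := by
  unfold kap
  rw [Finset.sum_eq_single n]
  · simp [hp.out.pos]
  · intro t ht hne
    have ht' := mem_range.mp ht
    by_cases h1 : n - t < p^s
    · have h2 : ((n.choose t : ℕ) : ZMod p) = 0 := by
        rw [← Nat.choose_symm (by omega)]
        exact choose_dvd hn (by omega) h1
      rw [nsmul_eq_mul, h2, zero_mul]
    · rw [if_neg h1, mul_zero, smul_zero]
  · intro h1
    exact absurd (mem_range.mpr (Nat.lt_succ_self n)) h1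

/-- `h` of the all-ones sequence depends only on the cardinality -/
lemma h_one {m : ℕ} {J J' : Finset ι} (hJ : J.card = J'.card) :
    h p m (fun _ => 1) J = h p m (fun _ => 1) J' := by
  have key : ∀ J : Finset ι, h p m (fun _ => 1) J
      = ∑ t ∈ range (J.card+1), J.card.choose t •
          ((-1 : (ZMod p)[X])^t * (X+1)^((J.card - t).choose m)) := by
    intro J
    rw [mobius]
    have h1 : ∀ T ∈ J.powerset, ((-1 : (ZMod p)[X])^(T.card) * (X+1)^(E m (fun _ => 1) (J \ T)))
      = (fun t => (-1 : (ZMod p)[X])^t * (X+1)^((J.card - t).choose m)) T.card := by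
      intro T hT
      have h3 : (J \ T).card = J.card - T.card := Finset.card_sdiff_of_subset (mem_powerset.mp hT)
      simp only [E, Finset.prod_const_one, Finset.sum_const, Finset.card_powersetCard, h3,
        smul_eq_mul, mul_one]
    rw [Finset.sum_congr rfl h1]
    exact Finset.sum_powerset_apply_card
      (fun t => (-1 : (ZMod p)[X])^t * (X+1)^((J.card - t).choose m))
  rw [key, key, hJ]

end families


/-! ### Partitions into `m`-sets -/

section parts
variable {p : ℕ} [hp : Fact p.Prime] {ι : Type*} [DecidableEq ι]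

/-- partitions of `J` into `K` sets of size `m` (when `|J| = m K`) -/
def Par (m : ℕ) (J : Finset ι) (K : ℕ) : Finset (Finset (Finset ι)) :=
  (Fam m J).filter (fun F => F.card = K)

lemma sup_card_le {m : ℕ} {F : Finset (Finset ι)} (hF : ∀ I ∈ F, I.card = m) :
    (F.sup id).card ≤ F.card * m := by
  rw [Finset.sup_eq_biUnion]
  exact Finset.card_biUnion_le_card_mul _ _ _ fun I hI => (hF I hI).le

lemma erase_spec {m K : ℕ} {J : Finset ι} {F : Finset (Finset ι)} (hF : F ∈ Par m J (K+1))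
    (hJ : J.card = m*(K+1)) {B : Finset ι} (hB : B ∈ F) :
    F.erase B ∈ Par m (J \ B) K ∧ Disjoint B ((F.erase B).sup id) ∧ (J \ B).card = m*K ∧
      B ⊆ J := by
  unfold Par at hF
  rw [mem_filter, fam_mem] at hF
  obtain ⟨⟨h1, h2⟩, h3⟩ := hF
  have hBJ : B ⊆ J := by
    intro x hx
    rw [← h2, sup_mem]
    exact ⟨B, hB, hx⟩
  have hc : (F.erase B).card = K := by rw [Finset.card_erase_of_mem hB, h3]; rfl
  have h4 : ((F.erase B).sup id).card ≤ K * m := by
    rw [← hc]
    exact sup_card_le fun I hI => h1 I (Finset.mem_of_mem_erase hI)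
  have h5 : (J \ B).card = m * K := by
    rw [Finset.card_sdiff_of_subset hBJ, hJ, h1 B hB, Nat.mul_succ, Nat.add_sub_cancel]
  have h6 : J \ B ⊆ (F.erase B).sup id := by
    intro x hx
    obtain ⟨hxJ, hxB⟩ := mem_sdiff.mp hx
    rw [← h2, sup_mem] at hxJ
    obtain ⟨I, hI, hxI⟩ := hxJ
    rw [sup_mem]
    refine ⟨I, Finset.mem_erase.mpr ⟨?_, hI⟩, hxI⟩
    rintro rfl
    exact hxB hxI
  have h7 : J \ B = (F.erase B).sup id :=
    Finset.eq_of_subset_of_card_le h6 (by rw [h5, mul_comm]; exact h4)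
  refine ⟨?_, ?_, h5, hBJ⟩
  · unfold Par
    rw [mem_filter, fam_mem]
    exact ⟨⟨fun I hI => h1 I (Finset.mem_of_mem_erase hI), h7.symm⟩, hc⟩
  · rw [← h7]
    exact Finset.disjoint_sdiff

lemma par_disjoint {m K : ℕ} {J : Finset ι} {F : Finset (Finset ι)} (hF : F ∈ Par m J K)
    (hJ : J.card = m*K) : (F : Set (Finset ι)).PairwiseDisjoint id := by
  intro B hB B' hB' hne
  have hK : F.card = K := (mem_filter.mp hF).2
  obtain ⟨k, rfl⟩ : ∃ k, K = k + 1 := by
    have : 0 < F.card := Finset.card_pos.mpr ⟨B, hB⟩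
    exact ⟨K - 1, by omega⟩
  obtain ⟨-, h2, -, -⟩ := erase_spec hF hJ (B := B) hB
  refine Finset.disjoint_of_subset_right ?_ h2
  intro x hx
  rw [sup_mem]
  exact ⟨B', Finset.mem_erase.mpr ⟨fun h => hne h.symm, hB'⟩, hx⟩

lemma par_prod {m K : ℕ} {J : Finset ι} {F : Finset (Finset ι)} (hF : F ∈ Par m J K)
    (hJ : J.card = m*K) {M : Type*} [CommMonoid M] (b : ι → M) :
    ∏ I ∈ F, ∏ i ∈ I, b i = ∏ i ∈ J, b i := by
  have h1 : F.sup id = J := (fam_mem.mp (mem_filter.mp hF).1).2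
  rw [← h1, Finset.sup_eq_biUnion, Finset.prod_biUnion (par_disjoint hF hJ)]
  rfl

lemma par_sum {m K : ℕ} {J : Finset ι} {F : Finset (Finset ι)} (hF : F ∈ Par m J K)
    (hJ : J.card = m*K) {M : Type*} [AddCommMonoid M] (b : ι → M) :
    ∑ I ∈ F, ∑ i ∈ I, b i = ∑ i ∈ J, b i := by
  have h1 : F.sup id = J := (fam_mem.mp (mem_filter.mp hF).1).2
  rw [← h1, Finset.sup_eq_biUnion, Finset.sum_biUnion (par_disjoint hF hJ)]
  rfl

lemma card_through {s K : ℕ} {J : Finset ι} (hJ : J.card = p^s*(K+1)) {j0 : ι} (hj : j0 ∈ J) :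
    ((((J.powersetCard (p^s)).filter (fun B => j0 ∈ B)).card : ℕ) : ZMod p) = 1 := by
  have hq : 0 < p^s := pow_pos hp.out.pos s
  have h1 := Finset.card_filter_add_card_filter_not (s := J.powersetCard (p^s)) (fun B => j0 ∈ B)
  have h2 : (J.powersetCard (p^s)).filter (fun B => ¬ j0 ∈ B) = (J.erase j0).powersetCard (p^s) := by
    ext B
    rw [mem_filter, mem_powersetCard, mem_powersetCard]
    constructor
    · rintro ⟨⟨h3, h4⟩, h5⟩
      exact ⟨fun x hx => Finset.mem_erase.mpr ⟨fun h => h5 (h ▸ hx), h3 hx⟩, h4⟩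
    · rintro ⟨h3, h4⟩
      exact ⟨⟨fun x hx => Finset.mem_of_mem_erase (h3 hx), h4⟩,
        fun h => absurd (h3 h) (Finset.notMem_erase _ _)⟩
  rw [h2, Finset.card_powersetCard, Finset.card_powersetCard, Finset.card_erase_of_mem hj, hJ] at h1
  have h3 := congrArg (Nat.cast : ℕ → ZMod p) h1
  rw [Nat.cast_add, choose_pow_self, choose_pow_self, Nat.mul_div_cancel_left _ hq] at h3
  have h4 : (p^s*(K+1) - 1) / p^s = K := by
    have h5 : p^s*(K+1) - 1 = (p^s - 1) + p^s * K := by
      rw [Nat.mul_succ]; omega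
    rw [h5, Nat.add_mul_div_left _ _ hq, Nat.div_eq_of_lt (by omega), zero_add]
  rw [h4] at h3
  push_cast at h3
  linear_combination h3

lemma card_par {s : ℕ} : ∀ (K : ℕ) (J : Finset ι), J.card = p^s*K →
    (((Par (p^s) J K).card : ℕ) : ZMod p) = 1 := by
  intro K
  induction K with
  | zero =>
    intro J hJ
    have hJ0 : J = ∅ := by rw [← Finset.card_eq_zero, hJ, mul_zero]
    have : Par (p^s) J 0 = {∅} := by
      ext F
      unfold Par
      rw [mem_filter, fam_mem, Finset.mem_singleton, Finset.card_eq_zero]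
      constructor
      · rintro ⟨_, h⟩; exact h
      · rintro rfl
        refine ⟨⟨by simp, ?_⟩, rfl⟩
        rw [hJ0]; rfl
    rw [this, Finset.card_singleton, Nat.cast_one]
  | succ K ih =>
    intro J hJ
    have hq : 0 < p^s := pow_pos hp.out.pos s
    obtain ⟨j0, hj⟩ : J.Nonempty := by
      rw [← Finset.card_pos, hJ]; positivity
    have h1 : (Par (p^s) J (K+1)).card
        = ∑ B ∈ (J.powersetCard (p^s)).filter (fun B => j0 ∈ B), (Par (p^s) (J \ B) K).card := by
      rw [← Finset.card_sigma]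
      symm
      refine Finset.card_bij (fun x _ => insert x.1 x.2) ?_ ?_ ?_
      · rintro ⟨B, G⟩ hx
        rw [Finset.mem_sigma, mem_filter, mem_powersetCard] at hx
        obtain ⟨⟨⟨h1, h2⟩, h3⟩, h4⟩ := hx
        simp only at h1 h2 h3 h4 ⊢
        unfold Par at h4 ⊢
        rw [mem_filter, fam_mem] at h4 ⊢
        obtain ⟨⟨h5, h6⟩, h7⟩ := h4
        have hBG : B ∉ G := by
          intro hBG
          have : j0 ∈ G.sup id := by rw [sup_mem]; exact ⟨B, hBG, h3⟩
          rw [h6] at this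
          exact (mem_sdiff.mp this).2 h3
        refine ⟨⟨?_, ?_⟩, ?_⟩
        · intro I hI
          rcases Finset.mem_insert.mp hI with h | h
          · rw [h]; exact h2
          · exact h5 I h
        · rw [Finset.sup_insert, h6, id]
          exact Finset.union_sdiff_of_subset h1
        · rw [Finset.card_insert_of_notMem hBG, h7]
      · rintro ⟨B, G⟩ hx ⟨B', G'⟩ hx' heq
        rw [Finset.mem_sigma, mem_filter, mem_powersetCard] at hx hx'
        obtain ⟨⟨⟨h1, h2⟩, h3⟩, h4⟩ := hx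
        obtain ⟨⟨⟨h1', h2'⟩, h3'⟩, h4'⟩ := hx'
        simp only at h1 h2 h3 h4 h1' h2' h3' h4' heq
        unfold Par at h4 h4'
        rw [mem_filter, fam_mem] at h4 h4'
        obtain ⟨⟨h5, h6⟩, h7⟩ := h4
        obtain ⟨⟨h5', h6'⟩, h7'⟩ := h4'
        have hno : ∀ I ∈ G, j0 ∉ I := by
          intro I hI hj0
          have : j0 ∈ G.sup id := by rw [sup_mem]; exact ⟨I, hI, hj0⟩
          rw [h6] at this
          exact (mem_sdiff.mp this).2 h3
        have hno' : ∀ I ∈ G', j0 ∉ I := by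
          intro I hI hj0
          have : j0 ∈ G'.sup id := by rw [sup_mem]; exact ⟨I, hI, hj0⟩
          rw [h6'] at this
          exact (mem_sdiff.mp this).2 h3'
        have hBB : B = B' := by
          have : B ∈ insert B' G' := by rw [← heq]; exact Finset.mem_insert_self _ _
          rcases Finset.mem_insert.mp this with h | h
          · exact h
          · exact absurd h3 (hno' B h)
        subst hBB
        have hGG : G = G' := by
          have e1 : (insert B G).erase B = G := Finset.erase_insert fun h => hno B h h3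
          have e2 : (insert B G').erase B = G' := Finset.erase_insert fun h => hno' B h h3
          rw [← e1, ← e2, heq]
        rw [hGG]
      · intro F hF
        have hF' := hF
        unfold Par at hF'
        rw [mem_filter, fam_mem] at hF'
        obtain ⟨⟨h5, h6⟩, h7⟩ := hF'
        have : j0 ∈ F.sup id := by rw [h6]; exact hj
        rw [sup_mem] at this
        obtain ⟨B, hB, hjB⟩ := this
        obtain ⟨e1, e2, e3, e4⟩ := erase_spec hF hJ hB
        refine ⟨⟨B, F.erase B⟩, ?_, ?_⟩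
        · rw [Finset.mem_sigma, mem_filter, mem_powersetCard]
          exact ⟨⟨⟨e4, h5 B hB⟩, hjB⟩, e1⟩
        · exact Finset.insert_erase hB
    rw [h1, Nat.cast_sum]
    have h2 : ∀ B ∈ (J.powersetCard (p^s)).filter (fun B => j0 ∈ B),
        (((Par (p^s) (J \ B) K).card : ℕ) : ZMod p) = 1 := by
      intro B hB
      rw [mem_filter, mem_powersetCard] at hB
      apply ih
      rw [Finset.card_sdiff_of_subset hB.1.1, hJ, hB.1.2, Nat.mul_succ, Nat.add_sub_cancel]
    rw [Finset.sum_congr rfl h2, Finset.sum_const, nsmul_eq_mul, mul_one]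
    exact card_through hJ hj

end parts


/-! ### The levels -/

section levels
variable {p : ℕ} [hp : Fact p.Prime] {ι : Type*} [DecidableEq ι]

omit [DecidableEq ι] in
lemma w_zero (a : ι → ℕ) (I : Finset ι) :
    ∃ g : (ZMod p)[X], w p a I = X * g ∧ g.coeff 0 = ∏ i ∈ I, (a i : ZMod p) := by
  refine ⟨∑ k ∈ range (∏ i ∈ I, a i), (X+1)^k, ?_, ?_⟩
  · rw [w, ← geom_sum_mul, add_sub_cancel_right, mul_comm]
  · rw [Polynomial.coeff_zero_eq_eval_zero, Polynomial.eval_finsetSum]
    simp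

lemma fam_card_ge {m K : ℕ} (hm : 0 < m) {J : Finset ι} {F : Finset (Finset ι)} (hF : F ∈ Fam m J)
    (hJ : J.card = m*K) : K ≤ F.card := by
  rw [fam_mem] at hF
  have h1 := sup_card_le hF.1
  rw [hF.2, hJ, mul_comm F.card] at h1
  exact Nat.le_of_mul_le_mul_left h1 hm

lemma level0 {s r : ℕ} {a : ι → ℕ}
    (hfree : ∀ Y : Finset ι, p^s ≤ Y.card → ¬ p^r ∣ E (p^s) a Y) {J : Finset ι}
    (hJ : J.card = p^s*(p^r-1)) :
    (-1 : ZMod p)^(p^s*(p^r-1)) = (-1)^(p^r-1) * ∏ j ∈ J, (a j : ZMod p) := by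
  have hm : 0 < p^s := pow_pos hp.out.pos s
  have hq : 0 < p^r := pow_pos hp.out.pos r
  have h1 := cf_h hfree J
  rw [hJ, kap_val (Dvd.intro _ rfl)] at h1
  rw [← h1, h, map_sum]
  have h2 : ∀ F ∈ Fam (p^s) J, cf p (p^r) (∏ I ∈ F, w p a I)
      = if F.card = p^r - 1 then (-1)^(p^r-1) * ∏ j ∈ J, (a j : ZMod p) else 0 := by
    intro F hF
    have hge := fam_card_ge hm hF hJ
    choose g hg1 hg2 using fun I => w_zero (p := p) a I
    have h3 : ∏ I ∈ F, w p a I = X^(F.card) * ∏ I ∈ F, g I := by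
      rw [Finset.prod_congr rfl fun I _ => hg1 I, Finset.prod_mul_distrib, Finset.prod_const]
    split_ifs with hc
    · have hFP : F ∈ Par (p^s) J (p^r-1) := mem_filter.mpr ⟨hF, hc⟩
      rw [h3, hc, cf_top hq, Polynomial.coeff_zero_eq_eval_zero, Polynomial.eval_prod,
        ← par_prod hFP hJ]
      congr 1
      refine Finset.prod_congr rfl fun I _ => ?_
      rw [← Polynomial.coeff_zero_eq_eval_zero, hg2]
    · obtain ⟨e, he⟩ : ∃ e, F.card = p^r + e := ⟨F.card - p^r, by omega⟩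
      rw [h3, he, pow_add, mul_assoc, cf_dvd]
  rw [Finset.sum_congr rfl h2, ← Finset.sum_filter, Finset.sum_const, nsmul_eq_mul]
  have h3 := card_par (p := p) (s := s) (p^r-1) J hJ
  unfold Par at h3
  rw [h3, one_mul]

lemma block_form {l : ℕ} (hl : 1 ≤ l) {a b : ι → ℕ} (hab : ∀ i, a i = 1 + p^l * b i)
    (I : Finset ι) :
    ∃ t : ℕ, ∏ i ∈ I, a i = 1 + p^l * t ∧ (t : ZMod p) = ∑ i ∈ I, (b i : ZMod p) := by
  induction I using Finset.induction_on with
  | empty => exact ⟨0, by simp, by simp⟩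
  | insert x I hx ih =>
    obtain ⟨t, ht1, ht2⟩ := ih
    refine ⟨b x + t + p^l * (b x * t), ?_, ?_⟩
    · rw [Finset.prod_insert hx, ht1, hab x]; ring
    · rw [Finset.sum_insert hx, ← ht2]
      have : (p : ZMod p) = 0 := by simp
      push_cast
      rw [this, zero_pow (by omega)]
      ring

lemma pow_form (Y : (ZMod p)[X]) (t : ℕ) : ∃ R, (Y + 1)^t = 1 + C (t : ZMod p) * Y + Y^2 * R := by
  induction t with
  | zero => exact ⟨0, by simp⟩
  | succ t ih =>
    obtain ⟨R, hR⟩ := ih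
    refine ⟨C (t : ZMod p) + R + R * Y, ?_⟩
    rw [pow_succ, hR]
    push_cast
    rw [C_add, C_1]
    ring

lemma w_form {l d : ℕ} (hl : 1 ≤ l) (hd : p^l = d + 1) {a b : ι → ℕ}
    (hab : ∀ i, a i = 1 + p^l * b i) (I : Finset ι) :
    ∃ R : (ZMod p)[X], w p a I
      = X * (1 + C (∑ i ∈ I, (b i : ZMod p)) * X^d + X^(d+1) * R) := by
  obtain ⟨t, ht1, ht2⟩ := block_form (p := p) hl hab I
  obtain ⟨R, hR⟩ := pow_form ((X : (ZMod p)[X])^(p^l)) t
  refine ⟨C (t : ZMod p) + (X+1) * X^d * R, ?_⟩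
  have h1 : (X+1 : (ZMod p)[X])^(p^l) = X^(p^l) + 1 := by
    rw [add_pow_char_pow, one_pow]
  rw [w, ht1, pow_add, pow_one, pow_mul, h1, hR, ← ht2, hd]
  ring

lemma prod_form {l d : ℕ} (hl : 1 ≤ l) (hd : p^l = d + 1) (hd1 : 1 ≤ d) {a b : ι → ℕ}
    (hab : ∀ i, a i = 1 + p^l * b i) (F : Finset (Finset ι)) :
    ∃ R : (ZMod p)[X], ∏ I ∈ F, w p a I
      = X^(F.card) * (1 + C (∑ I ∈ F, ∑ i ∈ I, (b i : ZMod p)) * X^d + X^(d+1) * R) := by
  obtain ⟨d', rfl⟩ : ∃ d', d = d' + 1 := ⟨d - 1, by omega⟩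
  induction F using Finset.induction_on with
  | empty => exact ⟨0, by simp⟩
  | insert I F hI ih =>
    obtain ⟨R, hR⟩ := ih
    obtain ⟨R', hR'⟩ := w_form (p := p) hl hd hab I
    rw [Finset.prod_insert hI, hR, hR', Finset.card_insert_of_notMem hI, Finset.sum_insert hI]
    refine ⟨C (∑ i ∈ I, (b i : ZMod p)) * C (∑ I ∈ F, ∑ i ∈ I, (b i : ZMod p)) * X^d'
      + R + R' + C (∑ i ∈ I, (b i : ZMod p)) * X^(d'+1) * R
      + C (∑ I ∈ F, ∑ i ∈ I, (b i : ZMod p)) * X^(d'+1) * R' + X^(d'+2) * R * R', ?_⟩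
    rw [C_add]
    ring

lemma level_eq {s r l : ℕ} (hl : 1 ≤ l) (hlr : l < r) {a b : ι → ℕ}
    (hab : ∀ i, a i = 1 + p^l * b i)
    (hfree : ∀ Y : Finset ι, p^s ≤ Y.card → ¬ p^r ∣ E (p^s) a Y) {J : Finset ι}
    (hJ : J.card = p^s*(p^r-p^l)) :
    kap p (p^s) (p^s*(p^r-p^l)) = cf p (p^r) (h p (p^s) (fun _ => 1) J)
      + (-1)^(p^r-1) * ∑ j ∈ J, (b j : ZMod p) := by
  have hm : 0 < p^s := pow_pos hp.out.pos s
  have hq : 0 < p^r := pow_pos hp.out.pos r
  have hP : 2 ≤ p^l := le_trans hp.out.two_le (Nat.le_self_pow (by omega) p)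
  have hPq : p^l < p^r := Nat.pow_lt_pow_right hp.out.one_lt hlr
  obtain ⟨d, hd⟩ : ∃ d, p^l = d + 1 := ⟨p^l - 1, by omega⟩
  have h1 := cf_h hfree J
  rw [hJ] at h1
  rw [← h1, h, h, map_sum, map_sum]
  have h2 : ∀ F ∈ Fam (p^s) J, cf p (p^r) (∏ I ∈ F, w p a I)
      = cf p (p^r) (∏ I ∈ F, w p (fun _ => 1) I)
        + if F.card = p^r - p^l then (-1)^(p^r-1) * ∑ j ∈ J, (b j : ZMod p) else 0 := by
    intro F hF
    have hge := fam_card_ge hm hF hJ
    obtain ⟨R, hR⟩ := prod_form (p := p) hl hd (by omega) hab F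
    have h3 : ∏ I ∈ F, w p (fun _ => 1) I = (X : (ZMod p)[X])^(F.card) := by
      rw [← Finset.prod_const]
      refine Finset.prod_congr rfl fun I _ => ?_
      rw [w, Finset.prod_const_one, pow_one, add_sub_cancel_right]
    rw [h3, hR]
    split_ifs with hc
    · have hFP : F ∈ Par (p^s) J (p^r-p^l) := mem_filter.mpr ⟨hF, hc⟩
      rw [par_sum hFP hJ]
      have h4 : X^(F.card) * (1 + C (∑ j ∈ J, (b j : ZMod p)) * X^d + X^(d+1) * R)
          = X^(F.card) + X^(p^r-1) * C (∑ j ∈ J, (b j : ZMod p)) + X^(p^r) * R := by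
        have e1 : p^r - 1 = F.card + d := by omega
        have e2 : p^r = F.card + (d + 1) := by omega
        rw [e1, e2, pow_add, pow_add]
        ring
      rw [h4, map_add, map_add, cf_dvd, add_zero, cf_top hq, Polynomial.coeff_C_zero]
    · obtain ⟨e, he⟩ : ∃ e, F.card + d = p^r + e := ⟨F.card + d - p^r, by omega⟩
      have h4 : X^(F.card) * (1 + C (∑ I ∈ F, ∑ i ∈ I, (b i : ZMod p)) * X^d + X^(d+1) * R)
          = X^(F.card) + X^(p^r) * (X^e * (C (∑ I ∈ F, ∑ i ∈ I, (b i : ZMod p)) + X * R)) := by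
        have : X^(F.card) * X^d = (X : (ZMod p)[X])^(p^r) * X^e := by
          rw [← pow_add, ← pow_add, he]
        calc _ = X^(F.card) + (X^(F.card) * X^d)
                * (C (∑ I ∈ F, ∑ i ∈ I, (b i : ZMod p)) + X * R) := by ring
          _ = _ := by rw [this]; ring
      rw [h4, map_add, cf_dvd]
  rw [Finset.sum_congr rfl h2, Finset.sum_add_distrib, ← Finset.sum_filter, Finset.sum_const,
    nsmul_eq_mul]
  have h3 := card_par (p := p) (s := s) (p^r-p^l) J hJ
  unfold Par at h3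
  rw [h3, one_mul]

/-- swapping one element -/
lemma exists_swap [Fintype ι] {n : ℕ} (hn : 1 ≤ n) (hc : n + 1 ≤ Fintype.card ι) {i j : ι}
    (hij : i ≠ j) : ∃ D : Finset ι, i ∉ D ∧ j ∉ D ∧ D.card = n - 1 := by
  have h1 : n - 1 ≤ ((Finset.univ.erase i).erase j).card := by
    rw [Finset.card_erase_of_mem (Finset.mem_erase.mpr ⟨hij.symm, Finset.mem_univ _⟩),
      Finset.card_erase_of_mem (Finset.mem_univ _), Finset.card_univ]
    omega
  obtain ⟨D, hD1, hD2⟩ := Finset.exists_subset_card_eq h1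
  refine ⟨D, fun h => ?_, fun h => ?_, hD2⟩
  · have := hD1 h
    simp at this
  · have := hD1 h
    simp at this

lemma level_step [Fintype ι] {s r l : ℕ} (hs : 1 ≤ s) (hl : 1 ≤ l) (hlr : l < r) {a b : ι → ℕ}
    (hcard : Fintype.card ι = p^s*p^r - 1)
    (hab : ∀ i, a i = 1 + p^l * b i)
    (hfree : ∀ Y : Finset ι, p^s ≤ Y.card → ¬ p^r ∣ E (p^s) a Y) (i j : ι) :
    (b i : ZMod p) = b j := by
  by_cases hij : i = j
  · rw [hij]
  have hm : 2 ≤ p^s := le_trans hp.out.two_le (Nat.le_self_pow (by omega) p)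
  have hP : 2 ≤ p^l := le_trans hp.out.two_le (Nat.le_self_pow (by omega) p)
  have hPq : p^l < p^r := Nat.pow_lt_pow_right hp.out.one_lt hlr
  have hmul : p^s * (p^r - p^l) + p^s * p^l = p^s * p^r := by
    rw [← Nat.mul_add, Nat.sub_add_cancel hPq.le]
  have hmp : 4 ≤ p^s * p^l := Nat.mul_le_mul hm hP
  have hn : 1 ≤ p^s * (p^r - p^l) := Nat.mul_pos (by omega) (by omega)
  obtain ⟨D, hi, hj, hD⟩ := exists_swap (n := p^s * (p^r - p^l)) hn (by omega) hij
  have c1 : (insert i D).card = p^s * (p^r - p^l) := by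
    rw [Finset.card_insert_of_notMem hi, hD]; omega
  have c2 : (insert j D).card = p^s * (p^r - p^l) := by
    rw [Finset.card_insert_of_notMem hj, hD]; omega
  have e1 := level_eq hl hlr hab hfree c1
  have e2 := level_eq hl hlr hab hfree c2
  rw [h_one (p := p) (m := p^s) (c1.trans c2.symm)] at e1
  rw [e2] at e1
  have e3 := add_left_cancel e1
  have hu : ((-1 : ZMod p)^(p^r-1)) ≠ 0 := pow_ne_zero _ (neg_ne_zero.mpr one_ne_zero)
  have e4 := mul_left_cancel₀ hu e3
  rw [Finset.sum_insert hi, Finset.sum_insert hj] at e4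
  exact (add_right_cancel e4).symm

lemma level_zero_unit [Fintype ι] {s r : ℕ} (hr : 1 ≤ r) {a : ι → ℕ}
    (hcard : Fintype.card ι = p^s*p^r - 1)
    (hfree : ∀ Y : Finset ι, p^s ≤ Y.card → ¬ p^r ∣ E (p^s) a Y) (i : ι) :
    (a i : ZMod p) ≠ 0 := by
  have hm : 1 ≤ p^s := Nat.one_le_pow _ _ hp.out.pos
  have hq : 2 ≤ p^r := le_trans hp.out.two_le (Nat.le_self_pow (by omega) p)
  have hmul : p^s * (p^r - 1) + p^s = p^s * p^r := by
    rw [Nat.mul_sub, mul_one]
    have : p^s * 1 ≤ p^s * p^r := Nat.mul_le_mul_left _ (by omega)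
    omega
  have hn : 1 ≤ p^s * (p^r - 1) := Nat.mul_pos (by omega) (by omega)
  obtain ⟨J, hJ1, hJ2⟩ : ∃ J : Finset ι, {i} ⊆ J ∧ J.card = p^s * (p^r-1) := by
    obtain ⟨J, h1, -, h2⟩ := Finset.exists_subsuperset_card_eq (s := {i}) (t := Finset.univ)
      (Finset.subset_univ _) (n := p^s * (p^r-1)) (by simpa using hn)
      (by rw [Finset.card_univ, hcard]; omega)
    exact ⟨J, h1, h2⟩
  have h1 := level0 hfree hJ2
  intro h2
  rw [Finset.prod_eq_zero (hJ1 (Finset.mem_singleton_self i)) h2, mul_zero] at h1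
  exact pow_ne_zero _ (neg_ne_zero.mpr one_ne_zero) h1

lemma level_zero_eq [Fintype ι] {s r : ℕ} (hs : 1 ≤ s) (hr : 1 ≤ r) {a : ι → ℕ}
    (hcard : Fintype.card ι = p^s*p^r - 1)
    (hfree : ∀ Y : Finset ι, p^s ≤ Y.card → ¬ p^r ∣ E (p^s) a Y) (i j : ι) :
    (a i : ZMod p) = a j := by
  by_cases hij : i = j
  · rw [hij]
  have hm : 2 ≤ p^s := le_trans hp.out.two_le (Nat.le_self_pow (by omega) p)
  have hq : 2 ≤ p^r := le_trans hp.out.two_le (Nat.le_self_pow (by omega) p)
  have hmul : p^s * (p^r - 1) + p^s = p^s * p^r := by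
    rw [Nat.mul_sub, mul_one]
    have : p^s * 1 ≤ p^s * p^r := Nat.mul_le_mul_left _ (by omega)
    omega
  have hn : 1 ≤ p^s * (p^r - 1) := Nat.mul_pos (by omega) (by omega)
  obtain ⟨D, hi, hj, hD⟩ := exists_swap (n := p^s * (p^r - 1)) hn (by omega) hij
  have c1 : (insert i D).card = p^s * (p^r - 1) := by
    rw [Finset.card_insert_of_notMem hi, hD]; omega
  have c2 : (insert j D).card = p^s * (p^r - 1) := by
    rw [Finset.card_insert_of_notMem hj, hD]; omega
  have e1 := level0 hfree c1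
  have e2 := level0 hfree c2
  rw [e2] at e1
  have hu : ((-1 : ZMod p)^(p^r-1)) ≠ 0 := pow_ne_zero _ (neg_ne_zero.mpr one_ne_zero)
  have e4 := mul_left_cancel₀ hu e1
  rw [Finset.prod_insert hi, Finset.prod_insert hj] at e4
  have hne : ∏ x ∈ D, (a x : ZMod p) ≠ 0 :=
    Finset.prod_ne_zero_iff.mpr fun x _ => level_zero_unit hr hcard hfree x
  exact (mul_right_cancel₀ hne e4).symm

omit [DecidableEq ι] in
lemma E_scale {m c : ℕ} {a : ι → ℕ} (Y : Finset ι) :
    E m (fun i => c * a i) Y = c^m * E m a Y := by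
  rw [E, E, Finset.mul_sum]
  refine Finset.sum_congr rfl fun I hI => ?_
  rw [Finset.prod_mul_distrib, Finset.prod_const, (mem_powersetCard.mp hI).2]

theorem core [Fintype ι] {s r : ℕ} (hs : 1 ≤ s) (hr : 1 ≤ r) {a : ι → ℕ}
    (hcard : Fintype.card ι = p^s*p^r - 1)
    (hfree : ∀ Y : Finset ι, p^s ≤ Y.card → ¬ p^r ∣ E (p^s) a Y) :
    ∀ l, 1 ≤ l → l ≤ r → ∀ i j : ι, a i ≡ a j [MOD p^l] := by
  intro l hl
  induction l, hl using Nat.le_induction with
  | base =>
    intro _ i j
    rw [pow_one]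
    exact (ZMod.natCast_eq_natCast_iff _ _ _).mp (level_zero_eq hs hr hcard hfree i j)
  | succ l hl ih =>
    intro hlr i j
    have hunit := level_zero_unit hr hcard hfree i
    have hndvd : ¬ p ∣ a i := fun h => hunit ((ZMod.natCast_eq_zero_iff _ _).mpr h)
    have hco : Nat.Coprime (a i) (p^r) :=
      (Nat.Coprime.pow_left r ((Nat.Prime.coprime_iff_not_dvd hp.out).mpr hndvd)).symm
    have hq : 1 < p^r := Nat.one_lt_pow (by omega) hp.out.one_lt
    obtain ⟨c, hc⟩ := Nat.exists_mul_mod_eq_one_of_coprime hco hq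
    have hc1 : a i * c ≡ 1 [MOD p^r] := by
      rw [Nat.ModEq, hc.2, Nat.mod_eq_of_lt hq]
    have hcp : Nat.Coprime p c := by
      rw [Nat.Prime.coprime_iff_not_dvd hp.out]
      intro hd
      have h1 : a i * c ≡ 1 [MOD p] := hc1.of_dvd (dvd_pow_self p (by omega))
      have h2 : p ∣ a i * c := Dvd.dvd.mul_left hd _
      have h3 : p ∣ 1 := (Nat.ModEq.dvd_iff h1 dvd_rfl).mp h2
      exact hp.out.one_lt.ne' (Nat.dvd_one.mp h3)
    have hPl : 1 < p^l := Nat.one_lt_pow (by omega) hp.out.one_lt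
    have hab : ∀ k, c * a k = 1 + p^l * (c * a k / p^l) := by
      intro k
      have h1 : c * a k ≡ 1 [MOD p^l] := by
        calc c * a k ≡ c * a i [MOD p^l] := (ih (by omega) k i).mul_left c
          _ = a i * c := mul_comm _ _
          _ ≡ 1 [MOD p^l] := hc1.of_dvd (pow_dvd_pow p (by omega))
      have h2 : c * a k % p^l = 1 := by
        have h1' := h1
        rw [Nat.ModEq, Nat.mod_eq_of_lt hPl] at h1'
        exact h1'
      conv_lhs => rw [← Nat.mod_add_div (c * a k) (p^l), h2]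
    have hfree' : ∀ Y : Finset ι, p^s ≤ Y.card → ¬ p^r ∣ E (p^s) (fun k => c * a k) Y := by
      intro Y hY hd
      rw [E_scale] at hd
      exact hfree Y hY ((Nat.Coprime.pow r (p^s) hcp).dvd_of_dvd_mul_left hd)
    have h1 := level_step (b := fun k => c * a k / p^l) hs hl (by omega) hcard hab hfree' i j
    have h2 : c * a i / p^l ≡ c * a j / p^l [MOD p] := (ZMod.natCast_eq_natCast_iff _ _ _).mp h1
    have h3 : c * a i ≡ c * a j [MOD p^(l+1)] := by
      rw [hab i, hab j, pow_succ]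
      exact (h2.mul_left' (p^l)).add_left 1
    exact Nat.ModEq.cancel_left_of_coprime (Nat.Coprime.pow_left _ hcp) h3

end levels


/-! ### The classical case `m = 1` -/

section classical
variable {ι : Type*} [DecidableEq ι] {G : Type*} [AddCommGroup G] [Fintype G] [DecidableEq G]

/-- all subset sums -/
def Sg (f : ι → G) (X : Finset ι) : Finset G := X.powerset.image (fun Y => ∑ y ∈ Y, f y)

lemma grow {f : ι → G} (hf : ∀ Y : Finset ι, Y.Nonempty → ∑ y ∈ Y, f y ≠ 0) {X : Finset ι}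
    {x : ι} (hx : x ∉ X) : (Sg f X).card + 1 ≤ (Sg f (insert x X)).card := by
  by_contra hcon
  have hsub : Sg f X ⊆ Sg f (insert x X) :=
    Finset.image_subset_image (Finset.powerset_mono.mpr (Finset.subset_insert _ _))
  have heq : Sg f X = Sg f (insert x X) := Finset.eq_of_subset_of_card_le hsub (by omega)
  have hmul : ∀ k : ℕ, k • f x ∈ Sg f X := by
    intro k
    induction k with
    | zero =>
      rw [zero_smul]
      exact Finset.mem_image.mpr ⟨∅, by simp, by simp⟩
    | succ k ih =>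
      rw [heq]
      obtain ⟨Y, hY1, hY2⟩ := Finset.mem_image.mp ih
      have hxY : x ∉ Y := fun h => hx (mem_powerset.mp hY1 h)
      refine Finset.mem_image.mpr ⟨insert x Y, ?_, ?_⟩
      · rw [mem_powerset]
        exact Finset.insert_subset_insert _ (mem_powerset.mp hY1)
      · rw [Finset.sum_insert hxY, hY2, add_smul, one_smul, add_comm]
  obtain ⟨Y, hY1, hY2⟩ := Finset.mem_image.mp (hmul (Fintype.card G - 1))
  have hxY : x ∉ Y := fun h => hx (mem_powerset.mp hY1 h)
  apply hf (insert x Y) (Finset.insert_nonempty _ _)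
  rw [Finset.sum_insert hxY, hY2]
  have h1 : Fintype.card G • f x = 0 := card_nsmul_eq_zero
  have h2 : Fintype.card G = (Fintype.card G - 1) + 1 := by
    have := Fintype.card_pos (α := G)
    omega
  rw [h2, add_smul, one_smul] at h1
  rw [add_comm]
  exact h1

lemma lower {f : ι → G} (hf : ∀ Y : Finset ι, Y.Nonempty → ∑ y ∈ Y, f y ≠ 0) {i j : ι}
    (hij : f i ≠ f j) (D : Finset ι) (hi : i ∉ D) (hj : j ∉ D) :
    D.card + 4 ≤ (Sg f (D ∪ {i, j})).card := by
  have hne : i ≠ j := fun h => hij (by rw [h])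
  induction D using Finset.induction_on with
  | empty =>
    have hi0 : f i ≠ 0 := by simpa using hf {i} (Finset.singleton_nonempty _)
    have hj0 : f j ≠ 0 := by simpa using hf {j} (Finset.singleton_nonempty _)
    have hij0 : f i + f j ≠ 0 := by
      have := hf {i, j} ⟨i, by simp⟩
      rwa [Finset.sum_pair hne] at this
    have hsub : ({0, f i, f j, f i + f j} : Finset G) ⊆ Sg f (∅ ∪ {i, j}) := by
      intro g hg
      simp only [Finset.mem_insert, Finset.mem_singleton] at hg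
      unfold Sg
      rw [Finset.mem_image, Finset.empty_union]
      rcases hg with rfl | rfl | rfl | rfl
      · exact ⟨∅, by simp, by simp⟩
      · exact ⟨{i}, by simp, by simp⟩
      · exact ⟨{j}, by simp, by simp⟩
      · exact ⟨{i, j}, by simp, Finset.sum_pair hne⟩
    have hc : ({0, f i, f j, f i + f j} : Finset G).card = 4 := by
      rw [Finset.card_insert_of_notMem, Finset.card_insert_of_notMem,
        Finset.card_insert_of_notMem, Finset.card_singleton]
      · simp only [Finset.mem_singleton]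
        intro h
        exact hi0 (by simpa using h)
      · simp only [Finset.mem_insert, Finset.mem_singleton, not_or]
        refine ⟨hij, fun h => hj0 (by simpa using h)⟩
      · simp only [Finset.mem_insert, Finset.mem_singleton, not_or]
        exact ⟨hi0.symm, hj0.symm, hij0.symm⟩
    have := Finset.card_le_card hsub
    rw [hc] at this
    simpa using this
  | insert x D hx ih =>
    have h1 : x ≠ i := fun h => hi (by rw [← h]; exact Finset.mem_insert_self _ _)
    have h2 : x ≠ j := fun h => hj (by rw [← h]; exact Finset.mem_insert_self _ _)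
    have h3 := ih (fun h => hi (Finset.mem_insert_of_mem h)) (fun h => hj (Finset.mem_insert_of_mem h))
    have h4 : x ∉ D ∪ {i, j} := by
      simp only [Finset.mem_union, Finset.mem_insert, Finset.mem_singleton, not_or]
      exact ⟨hx, h1, h2⟩
    have h5 := grow hf h4
    rw [← Finset.insert_union] at h5
    rw [Finset.card_insert_of_notMem hx]
    omega

lemma classical_eq [Fintype ι] {f : ι → G} (hf : ∀ Y : Finset ι, Y.Nonempty → ∑ y ∈ Y, f y ≠ 0)
    (hcard : Fintype.card ι = Fintype.card G - 1) (i j : ι) : f i = f j := by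
  by_contra hij
  have hne : i ≠ j := fun h => hij (by rw [h])
  have h1 := lower hf hij (Finset.univ \ {i, j}) (by simp) (by simp)
  have h2 : (Finset.univ \ {i, j} : Finset ι).card = Fintype.card ι - 2 := by
    rw [Finset.card_sdiff_of_subset (Finset.subset_univ _), Finset.card_pair hne,
      Finset.card_univ]
  have h3 : 2 ≤ Fintype.card ι := by
    rw [← Finset.card_pair hne]
    exact Finset.card_le_univ _
  have h4 : (Sg f ((Finset.univ \ {i, j}) ∪ {i, j})).card ≤ Fintype.card G := Finset.card_le_univ _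
  omega

end classical

/-- **Main theorem.** -/
theorem result (p : ℕ) [Fact p.Prime] (r s : ℕ) (hr : 1 ≤ r) (S : Multiset (ZMod (p^r)))
    (hcard : S.card = p^s * p^r - 1)
    (hfree : ∀ S' : Multiset (ZMod (p^r)), S' ≤ S → p^s ≤ S'.card → S'.esymm (p^s) ≠ 0) :
    ∃ a : ZMod (p^r), IsUnit a ∧ AddSubgroup.zmultiples a = ⊤ ∧
      S = Multiset.replicate (p^s * p^r - 1) a := by
  have hpp : p.Prime := Fact.out
  have hq : 2 ≤ p^r := le_trans hpp.two_le (Nat.le_self_pow (by omega) p)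
  have hm : 1 ≤ p^s := Nat.one_le_pow _ _ hpp.pos
  have : NeZero (p^r) := ⟨by omega⟩
  have hmul : p^s * (p^r - 1) + p^s = p^s * p^r := by
    rw [Nat.mul_sub, mul_one]
    have : p^s * 1 ≤ p^s * p^r := Nat.mul_le_mul_left _ (by omega)
    omega
  have hpos : 1 ≤ p^s * (p^r - 1) := Nat.mul_pos (by omega) (by omega)
  obtain ⟨L, rfl⟩ := Quot.exists_rep S
  change ((L : Multiset (ZMod (p^r)))).card = _ at hcard
  rw [Multiset.coe_card] at hcard
  set f : Fin L.length → ZMod (p^r) := L.get with hf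
  have hL : (Finset.univ : Finset (Fin L.length)).val.map f = (L : Multiset (ZMod (p^r))) := by
    rw [hf, Fin.univ_val_map, List.ofFn_get]
  have hcardι : Fintype.card (Fin L.length) = p^s * p^r - 1 := by rw [Fintype.card_fin, hcard]
  have hE : ∀ Y : Finset (Fin L.length), ((E (p^s) (fun i => (f i).val) Y : ℕ) : ZMod (p^r))
      = (Y.val.map f).esymm (p^s) := by
    intro Y
    rw [Finset.esymm_map_val, E, Nat.cast_sum]
    refine Finset.sum_congr rfl fun I _ => ?_
    rw [Nat.cast_prod]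
    refine Finset.prod_congr rfl fun i _ => ?_
    rw [ZMod.natCast_zmod_val]
  have hfree' : ∀ Y : Finset (Fin L.length), p^s ≤ Y.card →
      ¬ p^r ∣ E (p^s) (fun i => (f i).val) Y := by
    intro Y hY hd
    refine hfree (Y.val.map f) ?_ ?_ ?_
    · change _ ≤ (L : Multiset (ZMod (p^r)))
      rw [← hL]
      exact Multiset.map_le_map (Finset.val_le_iff.mpr (Finset.subset_univ Y))
    · rw [Multiset.card_map]; exact hY
    · rw [← hE]
      exact (ZMod.natCast_eq_zero_iff _ _).mpr hd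
  have hall : ∀ i j, f i = f j := by
    rcases Nat.eq_zero_or_pos s with hs | hs
    · subst hs
      intro i j
      refine classical_eq (ι := Fin L.length) (G := ZMod (p^r)) (f := f) ?_ ?_ i j
      · intro Y hY hsum
        refine hfree' Y (by rw [pow_zero]; exact Finset.card_pos.mpr hY) ?_
        rw [← ZMod.natCast_eq_zero_iff, hE, Finset.esymm_map_val, pow_zero,
          Finset.powersetCard_one, Finset.sum_map]
        simpa using hsum
      · rw [hcardι, ZMod.card]
        simp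
    · intro i j
      have h1 := core (p := p) (s := s) (r := r) hs hr hcardι hfree' r hr le_rfl i j
      have h2 := (ZMod.natCast_eq_natCast_iff _ _ _).mpr h1
      simpa using h2
  have i0 : Fin L.length := ⟨0, by omega⟩
  have hu : IsUnit (f i0) := by
    have h1 := level_zero_unit (p := p) (s := s) (r := r) hr hcardι hfree' i0
    have h2 : ¬ p ∣ (f i0).val := fun h => h1 ((ZMod.natCast_eq_zero_iff _ _).mpr h)
    have h3 : Nat.Coprime (f i0).val (p^r) :=
      (Nat.Coprime.pow_left r ((Nat.Prime.coprime_iff_not_dvd hpp).mpr h2)).symm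
    have h4 := (ZMod.isUnit_iff_coprime (f i0).val (p^r)).mpr h3
    rwa [ZMod.natCast_zmod_val] at h4
  refine ⟨f i0, hu, ?_, ?_⟩
  · rw [eq_top_iff]
    intro x _
    obtain ⟨u, hu'⟩ := hu
    rw [AddSubgroup.mem_zmultiples_iff]
    refine ⟨((x * (u⁻¹ : (ZMod (p^r))ˣ)).val : ℤ), ?_⟩
    rw [natCast_zsmul, nsmul_eq_mul, ZMod.natCast_zmod_val, ← hu', mul_assoc, Units.inv_mul,
      mul_one]
  · change (L : Multiset (ZMod (p^r))) = _
    rw [Multiset.eq_replicate]
    refine ⟨by rw [Multiset.coe_card, hcard], ?_⟩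
    intro b hb
    rw [← hL, Multiset.mem_map] at hb
    obtain ⟨i, -, rfl⟩ := hb
    exact hall i i0

end Pool.Agent.Results.MP_e23efd_co.ConstantOnly
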